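import Mathlib

set_option autoImplicit false

namespace Pool.Agent.Results.MP_64d5df_nt.Q2False

/-- Distance from a real number to the nearest integer. -/
noncomputable def nrm (x : ℝ) : ℝ := |x - round x|

/-- Loneliness gap of a nonempty finite set of speeds. -/
noncomputable def kappa (V : Finset ℕ) (hV : V.Nonempty) : ℝ :=
  ⨆ t : ℝ, V.inf' hV (fun v => nrm (t * v))

lemma nrm_le (x : ℝ) (k : ℤ) : nrm x ≤ |x - k| := round_le x k

lemma nrm_half (x : ℝ) : nrm x ≤ 1 / 2 := abs_sub_round x

lemma two (x : ℝ) : nrm x ≤ 1 / 3 ∨ nrm (2 * x) ≤ 1 / 3 := by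
  by_contra h
  push Not at h
  obtain ⟨h1, h2⟩ := h
  have a := nrm_half x
  unfold nrm at h1 a
  rcases abs_cases (x - round x) with ⟨e, _⟩ | ⟨e, _⟩
  · have b := nrm_le (2 * x) (2 * round x + 1)
    push_cast at b
    rw [abs_of_nonpos (by linarith)] at b
    linarith
  · have b := nrm_le (2 * x) (2 * round x - 1)
    push_cast at b
    rw [abs_of_nonneg (by linarith)] at b
    linarith

theorem result : ∃ (V : Finset ℕ) (hV : V.Nonempty) (a : ℕ), (∀ v ∈ V, 0 < v) ∧ 0 < a ∧
    kappa (V.image (fun v => a + v)) (hV.image _) < kappa V hV := by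
  refine ⟨{1, 3}, by simp, 1, by simp, one_pos, ?_⟩
  have h1 : kappa (({1, 3} : Finset ℕ).image (fun v => 1 + v)) (Finset.Nonempty.image (by simp) _)
      ≤ 1 / 3 := by
    refine ciSup_le fun t => ?_
    rcases two (t * 2) with h | h
    · refine le_trans (Finset.inf'_le _ (b := 2) (by simp)) ?_
      simpa using h
    · refine le_trans (Finset.inf'_le _ (b := 4) (by simp)) ?_
      have e : t * ((4 : ℕ) : ℝ) = 2 * (t * 2) := by push_cast; ring
      rw [e]; exact h
  have h2 : (1 : ℝ) / 2 ≤ kappa ({1, 3} : Finset ℕ) (by simp) := by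
    refine le_ciSup_of_le ⟨1 / 2, ?_⟩ (1 / 2) ?_
    · rintro _ ⟨t, rfl⟩
      exact le_trans (Finset.inf'_le _ (b := 1) (by simp)) (nrm_half _)
    · rw [Finset.le_inf'_iff]
      intro v hv
      simp only [Finset.mem_insert, Finset.mem_singleton] at hv
      rcases hv with rfl | rfl
      · have : round ((1 : ℝ) / 2 * ((1 : ℕ) : ℝ)) = 1 := by
          rw [round_eq, Int.floor_eq_iff]; norm_num
        rw [nrm, this]; norm_num [abs_of_nonpos]
      · have : round ((1 : ℝ) / 2 * ((3 : ℕ) : ℝ)) = 2 := by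
          rw [round_eq, Int.floor_eq_iff]; norm_num
        rw [nrm, this]; norm_num [abs_of_nonpos]
  linarith

end Pool.Agent.Results.MP_64d5df_nt.Q2False
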